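import Pool.Agent.X32.Uni.SchQ

/-!
# `n = f₁(p) + a₁ = ... = f_k(p) + a_k` with one prime `p`, `p + d = P₂`, and almost primes `a_l`

Let `f_l(x) = x² + b_l x + c_l`, `l < k`, `|b_l|, |c_l| ≤ K`, let `0 < |d| ≤ K`, and let `n` be large (in terms of `K`, `k`)
and such that no prime divides `x (x + d) ∏ (n - f_l(x))` for all `x`. Then for every interval `(A, B]` with
`B ≤ (1 - θ) √n`, `B - A ≥ θ √n` there are at least `κ (B - A) V` primes `p` of `(A, B]` for which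
* `p + d` is a product of at most two primes, both `> (√n) ^ (1 / 9)`,
* for all `l < k`: `n - f_l(p)` is positive and a product of at most `2 t` primes, all `> (√n) ^ (1 / t)`.
Here `V = ∏_{p ≤ √n} (1 - ω(p) / p)` (so the order of magnitude is the conjectured one) and `t`, `κ` depend only on `k`, not
on the polynomials, on `d` or on `n`. For every colouring the set of these primes is covered, up to `δ (B - A) V` of them,
by disjoint monochromatic progressions of length `s` with differences `≤ (log n) ^ c`.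

If `k = 1` and `f₁` is admissible in the sense of the problem (`b + c` odd, `3 ∤ b`), `n` is odd and `6 ∣ d`, there is never
a local obstruction: so every large odd `n` is `f(p) + a` with `p` prime, `p + 6 = P₂` and `a` an almost prime, with at most
`2 t` prime factors, for every admissible `f`, with the same `t` for all `f`.
-/

set_option autoImplicit false

namespace Pool.Agent.Results.MP_d9bc60_nt.ChenArguments

open Finset

variable {k : ℕ}

/-- the value `n - f(x)`, `f = x ^ 2 + b x + c` for `z = (b, c)` -/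
def rest (n : ℕ) (z : ℤ × ℤ) (x : ℤ) : ℤ := n - (x ^ 2 + z.1 * x + z.2)

/-- `|v| > 1`, and `|v|` is a product of at most `r` primes, all of them larger than `y` -/
def Almost (r : ℕ) (y : ℝ) (v : ℤ) : Prop :=
  1 < |v| ∧ v.natAbs.primeFactorsList.length ≤ r ∧ ∀ q : ℕ, q.Prime → (q : ℤ) ∣ v → y < q

/-- `ω(p)`: the number of the zeros of `x (x + d) ∏ (n - f_l(x))` modulo `p` -/
noncomputable def omega (n : ℕ) (d : ℤ) (S : Fin k → ℤ × ℤ) (p : ℕ) : ℕ :=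
  ((range p).filter (fun x : ℕ => (p : ℤ) ∣ (x : ℤ) * (x + d) * ∏ l, rest n (S l) x)).card

/-- the product of `1 - ω(p) / p` over the primes `p ≤ √n` -/
noncomputable def V (n : ℕ) (d : ℤ) (S : Fin k → ℤ × ℤ) : ℝ :=
  ∏ p ∈ (Icc 1 (Nat.sqrt n)).filter Nat.Prime, (1 - (omega n d S p : ℝ) / p)

open Classical in
/-- the primes `p` of `(A, B]` described above -/
noncomputable def Good (n : ℕ) (d : ℤ) (S : Fin k → ℤ × ℤ) (t A B : ℕ) : Finset ℕ :=
  (Ioc A B).filter (fun p : ℕ => p.Prime ∧ (Nat.sqrt n : ℝ) ^ (1 / (t : ℝ)) < p ∧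
    Almost 2 ((Nat.sqrt n : ℝ) ^ (1 / 9 : ℝ)) (p + d) ∧ Almost t ((Nat.sqrt n : ℝ) ^ (1 / (t : ℝ))) (p + d) ∧
    ∀ l, 0 < rest n (S l) p ∧ Almost (2 * t) ((Nat.sqrt n : ℝ) ^ (1 / (t : ℝ))) (rest n (S l) p))

/-- no local obstruction -/
def Local (n : ℕ) (d : ℤ) (S : Fin k → ℤ × ℤ) : Prop :=
  ∀ p : ℕ, p.Prime → ∃ x : ℤ, ¬ (p : ℤ) ∣ x * (x + d) ∧ ∀ l, ¬ (p : ℤ) ∣ rest n (S l) x

/-- the terms `a, a + b, ..., a + (s - 1) b` of the progression `z = (a, b)` -/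
def terms (s : ℕ) (z : ℕ × ℕ) : Finset ℕ := (range s).image (fun i => z.1 + i * z.2)

theorem result :
    (∀ k : ℕ, ∃ t : ℕ, 1 ≤ t ∧ ∃ κ : ℝ, 0 < κ ∧ ∀ (K s r : ℕ) (θ δ : ℝ), 1 ≤ s → 0 < θ → 0 < δ →
      ∃ c n₀ : ℕ, ∀ n : ℕ, n₀ ≤ n → ∀ (d : ℤ) (S : Fin k → ℤ × ℤ), d ≠ 0 → |d| ≤ K →
        (∀ l, |(S l).1| ≤ K ∧ |(S l).2| ≤ K) → Local n d S →
        κ / Real.log (Nat.sqrt n) ^ (2 * k + 2) ≤ V n d S ∧ ∀ A B : ℕ, (B : ℝ) ≤ (1 - θ) * Nat.sqrt n →
          θ * Nat.sqrt n ≤ (B : ℝ) - A →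
          κ * ((B : ℝ) - A) * V n d S ≤ ((Good n d S t A B).card : ℝ) ∧
          ∀ χ : ℕ → Fin r, ∃ P : Finset (ℕ × ℕ),
            (∀ z ∈ P, 1 ≤ z.2 ∧ (z.2 : ℝ) ≤ Real.log (Nat.sqrt n) ^ c ∧
              ∀ l < s, z.1 + l * z.2 ∈ Good n d S t A B ∧ χ (z.1 + l * z.2) = χ z.1) ∧
            (P : Set (ℕ × ℕ)).PairwiseDisjoint (terms s) ∧
            (((Good n d S t A B \ P.biUnion (terms s)).card : ℕ) : ℝ) ≤ δ * ((B : ℝ) - A) * V n d S) ∧
    ∀ n : ℕ, n % 2 = 1 → ∀ b c d : ℤ, (b + c) % 2 = 1 → ¬ (3 : ℤ) ∣ b → (6 : ℤ) ∣ d →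
      Local n d (fun _ : Fin 1 => (b, c)) :=
  ⟨fun k => Pool.Agent.X32.Uni.schQ k, fun n hn b c d h1 h2 hd => Pool.Agent.X32.Uni.loc_adm n hn b c d h1 h2 hd⟩

end Pool.Agent.Results.MP_d9bc60_nt.ChenArguments
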