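import Pool.Agent.X15.SysS.Iso

/-!
# Representations `n = f(p₁) + p₂` with an isolated prime `p₁`: the right order of magnitude

Let `f = X ^ 2 + b X + c` be admissible and let `Λ` be arbitrarily large. All odd `n ≤ N` but an arbitrarily small
proportion have at least `δ √N / (log N) ^ 2` representations `n = f(p₁) + p₂` with a prime `p₁` that has no other prime
at distance at most `Λ log p₁`. (By van der Corput almost all odd `n` have a representation with arbitrary primes.)

The theorem rests on the library development Pool.Agent.TH882 (isolated primes are dense in all reduced classes; a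
general theorem on polynomial systems at dense sets of primes).
-/

set_option autoImplicit false

open Finset Filter Topology

namespace Pool.Agent.Results.MP_d9bc60_nt.IsolatedPrimeArguments

/-- `p` is a prime, and no other prime is at distance at most `R` from `p`. -/
def IsolatedPrime (R : ℝ) (p : ℕ) : Prop := p.Prime ∧ ∀ q : ℕ, q.Prime → |(q : ℝ) - p| ≤ R → q = p

/-- The primes `p₁` without another prime at distance at most `Λ log p₁` such that `n = f(p₁) + p₂` with a prime `p₂`,
where `f = X ^ 2 + b X + c`. -/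
def arguments (b c : ℤ) (Λ : ℝ) (n : ℕ) : Set ℕ :=
  {p₁ : ℕ | IsolatedPrime (Λ * Real.log p₁) p₁ ∧
    ∃ p₂ : ℕ, p₂.Prime ∧ (n : ℤ) = ((p₁ : ℤ) ^ 2 + b * p₁ + c) + p₂}

/-- The odd `n ≤ N` with fewer than `δ √N / (log N) ^ 2` such primes. -/
def exceptions (b c : ℤ) (Λ δ : ℝ) (N : ℕ) : Set ℕ :=
  {n : ℕ | Odd n ∧ n ≤ N ∧ ((arguments b c Λ n).ncard : ℝ) < δ * (Real.sqrt N / Real.log N ^ 2)}

lemma arguments_finite (b c : ℤ) (Λ : ℝ) (n : ℕ) : (arguments b c Λ n).Finite := by
  apply (Set.finite_Iic (n + b.natAbs + c.natAbs + 1)).subset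
  rintro p ⟨-, q, -, h⟩
  rw [Set.mem_Iic]
  by_contra hc
  push Not at hc
  have h1 : ((n : ℤ) + |b| + |c| + 1) < p := by
    have : ((n + b.natAbs + c.natAbs + 1 : ℕ) : ℤ) < p := by exact_mod_cast hc
    push_cast at this
    simpa using this
  have h2 := neg_abs_le b
  have h3 := neg_abs_le c
  have h0 := abs_nonneg b
  have h0' := abs_nonneg c
  have hq : (0 : ℤ) ≤ q := by positivity
  have hn : (0 : ℤ) ≤ n := by positivity
  nlinarith

/-- there is no local obstruction -/
lemma loc (b c : ℤ) (hbc : Odd (b + c)) (hb : ¬ (3 : ℤ) ∣ b) (n : ℕ) (hn : Odd n) (l : ℕ) (hl : l.Prime) :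
    ∃ x : ℤ, ¬ (l : ℤ) ∣ x ∧ ¬ (l : ℤ) ∣ ((n : ℤ) - c) - (x ^ 2 + b * x) := by
  by_cases h2 : l = 2
  · subst h2
    refine ⟨1, by norm_num, ?_⟩
    obtain ⟨m, hm⟩ := hbc
    obtain ⟨k, hk⟩ := hn
    intro hd
    obtain ⟨t, ht⟩ := hd
    have hk' : (n : ℤ) = 2 * k + 1 := by exact_mod_cast hk
    push_cast at ht
    omega
  · by_cases h3 : l = 3
    · subst h3
      by_cases hd : ((3 : ℕ) : ℤ) ∣ ((n : ℤ) - c) - ((1 : ℤ) ^ 2 + b * 1)
      · refine ⟨2, by norm_num, fun hd2 => hb ?_⟩
        have h4 := dvd_sub hd hd2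
        have h5 : ((n : ℤ) - c) - ((1 : ℤ) ^ 2 + b * 1) - (((n : ℤ) - c) - ((2 : ℤ) ^ 2 + b * 2)) =
            3 + b := by ring
        rw [h5] at h4
        push_cast at h4
        exact (dvd_add_right (dvd_refl 3)).1 h4
      · exact ⟨1, by norm_num, hd⟩
    · have hl5 : 5 ≤ l := by
        have := hl.two_le
        by_contra hc
        have h4 : l = 4 := by omega
        rw [h4] at hl
        exact absurd hl (by norm_num)
      have hnd : ∀ a : ℤ, 0 < a → a < 5 → ¬ (l : ℤ) ∣ a := by
        intro a ha0 ha5 hd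
        have := Int.le_of_dvd ha0 hd
        omega
      by_cases hd : (l : ℤ) ∣ ((n : ℤ) - c) - ((1 : ℤ) ^ 2 + b * 1)
      · by_cases hd2 : (l : ℤ) ∣ ((n : ℤ) - c) - ((2 : ℤ) ^ 2 + b * 2)
        · refine ⟨3, hnd 3 (by norm_num) (by norm_num), fun hd3 => ?_⟩
          have h4 := dvd_sub hd hd2
          have h5 := dvd_sub hd2 hd3
          have h6 := dvd_sub h5 h4
          apply hnd 2 (by norm_num) (by norm_num)
          have h7 : (((n : ℤ) - c) - ((2 : ℤ) ^ 2 + b * 2) - (((n : ℤ) - c) - ((3 : ℤ) ^ 2 + b * 3))) -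
              (((n : ℤ) - c) - ((1 : ℤ) ^ 2 + b * 1) - (((n : ℤ) - c) - ((2 : ℤ) ^ 2 + b * 2))) = 2 := by
            ring
          rwa [h7] at h6
        · exact ⟨2, hnd 2 (by norm_num) (by norm_num), hd2⟩
      · exact ⟨1, hnd 1 (by norm_num) (by norm_num), hd⟩

/-- **Representations with an isolated prime `p₁`.** Let `b`, `c` be of opposite parity, `3 ∤ b`, `f = X ^ 2 + b X + c`,
`Λ > 0` and `κ > 0`. There are `δ > 0` and `N₀` such that for all `N ≥ N₀` all odd `n ≤ N` but at most `κ N` have at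
least `δ √N / (log N) ^ 2` representations `n = f(p₁) + p₂` with primes `p₁`, `p₂`, where no other prime is at distance
at most `Λ log p₁` from `p₁`. -/
theorem result (b c : ℤ) (hbc : Odd (b + c)) (hb : ¬ (3 : ℤ) ∣ b) (Λ κ : ℝ) (hΛ : 0 < Λ) (hκ : 0 < κ) :
    ∃ δ : ℝ, 0 < δ ∧ ∃ N₀ : ℕ, ∀ N : ℕ, N₀ ≤ N → ((exceptions b c Λ δ N).ncard : ℝ) ≤ κ * N := by
  classical
  set g : Fin 1 → Polynomial ℤ := fun _ => Polynomial.C (1 : ℤ) * Polynomial.X ^ 2 +
    Polynomial.C b * Polynomial.X + Polynomial.C 0 with hg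
  have hgd : ∀ j, (g j).natDegree = 2 := fun j => Polynomial.natDegree_quadratic one_ne_zero
  have hge : ∀ j, ∀ n : ℤ, (g j).eval n = n ^ 2 + b * n := by
    intro j n
    rw [hg]
    simp only [Polynomial.eval_add, Polynomial.eval_mul, Polynomial.eval_C, Polynomial.eval_pow,
      Polynomial.eval_X]
    ring
  obtain ⟨δ, hδ, x₀, h⟩ := Pool.Agent.X15.SysS.iso_sys (fun _ : Fin 1 => (-1 : ℤ))
    (fun _ => Or.inr rfl) g (fun j => by rw [hgd j]; norm_num)
    (fun j => by
      rw [hg]
      simp only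
      rw [Polynomial.leadingCoeff_quadratic one_ne_zero]
      exact one_pos) Λ hΛ (4 + c.natAbs) (κ / 2) (by positivity)
  refine ⟨δ / 2, by positivity, max ((x₀ + 3) ^ 2) (⌈2 * ((c.natAbs : ℝ) + 1) / κ⌉₊ + 1), fun N hN => ?_⟩
  have hN1 : (x₀ + 3) ^ 2 ≤ N := (le_max_left _ _).trans hN
  have hN2 : 2 * ((c.natAbs : ℝ) + 1) / κ ≤ N := by
    have e1 : ⌈2 * ((c.natAbs : ℝ) + 1) / κ⌉₊ ≤ N := by
      have := (le_max_right _ _).trans hN
      omega
    exact (Nat.le_ceil _).trans (by exact_mod_cast e1)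
  set x : ℕ := Nat.sqrt N with hx
  have hx1 : x₀ + 3 ≤ x := by
    rw [hx, Nat.le_sqrt']
    exact hN1
  have hxN : x ^ 2 ≤ N := Nat.sqrt_le' N
  have hNx : N < (x + 1) ^ 2 := Nat.lt_succ_sqrt' N
  have hNx4 : N ≤ 4 * x ^ 2 := by nlinarith
  have h1 := h x (by omega)
  have e0 : ∏ j, (x : ℝ) ^ (g j).natDegree = (x : ℝ) ^ 2 := by
    rw [Fin.prod_univ_one, hgd 0]
  rw [e0] at h1
  have hfin : (exceptions b c Λ (δ / 2) N).Finite := (Set.finite_Iic N).subset fun n hn => hn.2.1
  -- the exceptions above `|c|`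
  have hsub : exceptions b c Λ (δ / 2) N ⊆ (Set.Iic c.natAbs) ∪
      {n : ℕ | n ∈ exceptions b c Λ (δ / 2) N ∧ c.natAbs < n} := by
    intro n hn
    by_cases hc : n ≤ c.natAbs
    · exact Or.inl hc
    · exact Or.inr ⟨hn, by omega⟩
  set E := {n : ℕ | n ∈ exceptions b c Λ (δ / 2) N ∧ c.natAbs < n} with hE
  have hEfin : E.Finite := hfin.subset fun n hn => hn.1
  have hEc : (E.ncard : ℝ) ≤ κ / 2 * (x : ℝ) ^ 2 := by
    refine le_trans ?_ h1
    apply Nat.cast_le.2
    rw [← Set.ncard_coe_finset]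
    apply Set.ncard_le_ncard_of_injOn (fun n : ℕ => fun _ : Fin 1 => ((n : ℤ) - c).toNat)
    · rintro n ⟨⟨hn1, hn2, hn3⟩, hn4⟩
      have hcn : c < n := by
        have h5 : (c.natAbs : ℤ) < n := by exact_mod_cast hn4
        have h6 : c ≤ (c.natAbs : ℤ) := by
          rw [Int.natCast_natAbs]
          exact le_abs_self c
        linarith
      have hcast : (((n : ℤ) - c).toNat : ℤ) = (n : ℤ) - c := Int.toNat_of_nonneg (by linarith)
      rw [mem_coe, mem_filter, Fintype.mem_piFinset]
      refine ⟨fun j => ?_, ?_, ?_⟩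
      · rw [mem_Icc, hgd j]
        constructor
        · zify
          rw [hcast]
          linarith
        · zify
          rw [hcast]
          have h6 : -c ≤ |c| := neg_le_abs c
          have h7 : (n : ℤ) ≤ 4 * (x : ℤ) ^ 2 := by exact_mod_cast hn2.trans hNx4
          have h8 : (1 : ℤ) ≤ (x : ℤ) ^ 2 := by
            have : 1 ≤ x ^ 2 := Nat.one_le_pow _ _ (by omega)
            exact_mod_cast this
          have h9 : 0 ≤ |c| := abs_nonneg c
          nlinarith
      · intro l hl
        obtain ⟨y, hy1, hy2⟩ := loc b c hbc hb n hn1 l hl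
        refine ⟨y, hy1, fun j hd => hy2 ?_⟩
        rw [hcast, hge j] at hd
        have e2 : ((n : ℤ) - c) - (y ^ 2 + b * y) = (n : ℤ) - c + -1 * (y ^ 2 + b * y) := by ring
        rw [e2]
        exact hd
      · have hcard : (((Icc 1 x).filter (fun m : ℕ =>
          Pool.Agent.X15.SysS.Isolated (Λ * Real.log m) m ∧
            ∀ j, (((((n : ℤ) - c).toNat : ℕ) : ℤ) + -1 * (g j).eval (m : ℤ)).toNat.Prime)).card : ℝ) ≤
            ((arguments b c Λ n).ncard : ℝ) := by
          apply Nat.cast_le.2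
          rw [← Set.ncard_coe_finset]
          apply Set.ncard_le_ncard _ (arguments_finite b c Λ n)
          intro m hm
          rw [mem_coe, mem_filter] at hm
          obtain ⟨-, hm1, hm2⟩ := hm
          refine ⟨hm1, _, hm2 0, ?_⟩
          have hp := (hm2 0).pos
          have h9 : 0 < ((((n : ℤ) - c).toNat : ℕ) : ℤ) + -1 * (g 0).eval (m : ℤ) := by
            by_contra hcc
            push Not at hcc
            rw [Int.toNat_of_nonpos hcc] at hp
            omega
          rw [Int.toNat_of_nonneg h9.le, hcast, hge 0]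
          ring
        refine lt_of_le_of_lt hcard (lt_of_lt_of_le hn3 ?_)
        have hxr : (3 : ℝ) ≤ x := by exact_mod_cast (by omega : 3 ≤ x)
        have hs : Real.sqrt N ≤ 2 * x := by
          rw [Real.sqrt_le_left (by positivity)]
          have : (N : ℝ) ≤ 4 * (x : ℝ) ^ 2 := by exact_mod_cast hNx4
          nlinarith
        have hlx : 0 < Real.log x := Real.log_pos (by linarith)
        have hlN : Real.log x ≤ Real.log N := by
          apply Real.log_le_log (by linarith)
          have : x ≤ N := by nlinarith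
          exact_mod_cast this
        calc δ / 2 * (Real.sqrt N / Real.log N ^ 2) ≤ δ / 2 * (2 * x / Real.log x ^ 2) := by
              apply mul_le_mul_of_nonneg_left _ (by positivity)
              exact div_le_div₀ (by positivity) hs (by positivity) (pow_le_pow_left₀ hlx.le hlN 2)
          _ = δ * (x / Real.log x ^ (1 + 1)) := by ring
    · rintro n ⟨-, hn4⟩ m ⟨-, hm4⟩ hnm
      have hcl : ∀ k : ℕ, c.natAbs < k → c < k := by
        intro k hk
        have h5 : (c.natAbs : ℤ) < k := by exact_mod_cast hk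
        have h6 : c ≤ (c.natAbs : ℤ) := by
          rw [Int.natCast_natAbs]
          exact le_abs_self c
        linarith
      have h5 := congrFun hnm 0
      simp only at h5
      have h6 := hcl n hn4
      have h7 := hcl m hm4
      omega
  have h2 : ((exceptions b c Λ (δ / 2) N).ncard : ℝ) ≤ (c.natAbs + 1 : ℝ) + E.ncard := by
    have e1 := Set.ncard_le_ncard hsub ((Set.finite_Iic _).union hEfin)
    have e2 := Set.ncard_union_le (Set.Iic c.natAbs) E
    have e3 : (Set.Iic c.natAbs).ncard = c.natAbs + 1 := by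
      rw [← Finset.coe_Iic, Set.ncard_coe_finset, Nat.card_Iic]
    rw [e3] at e2
    exact_mod_cast e1.trans e2
  have h3 : (c.natAbs : ℝ) + 1 ≤ κ / 2 * N := by
    rw [div_le_iff₀ hκ] at hN2
    linarith
  have h4 : (x : ℝ) ^ 2 ≤ N := by exact_mod_cast hxN
  have h5 : κ / 2 * (x : ℝ) ^ 2 ≤ κ / 2 * N := mul_le_mul_of_nonneg_left h4 (by positivity)
  linarith

end Pool.Agent.Results.MP_d9bc60_nt.IsolatedPrimeArguments
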