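import Pool.Agent.X34.M.M12

set_option autoImplicit false

/-!
# Integers `N = F(t) + p`, `F` quadratic, without another representation with a small argument

Let `F = a x ^ 2 + b x + e` be any quadratic polynomial (`a ≠ 0` may be negative) and let `t` be an integer. For at least
`X ^ (9 / 10)` primes `p` in `(X, 3 X]` (in any class modulo a squarefree number) the number `N = F(t) + p` has no other
representation `N = F(m) + q` with a prime `q` and `|m| ≤ κ f(p)` (apart from the mirror image of `t`, which gives the same
value of `F`), where `f(p) = log p (log₂ p)² log₄ p / (log₃ p)²` (iterated natural logarithms) is the size of the largest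
known gaps between primes. This holds uniformly for `|t| ≤ κ f(X)`.

For a negative `a` this says that a quadratic polynomial `G(m) + A`, `A = p - G(t)`, with the prime value `p` at `t` is not
prime at all the other integers `m` with `|m| ≤ κ f(p)`.

Proof: `a (N - F(m)) = a p - z (z + s)` with `z = a (m - t)`, `s = 2 a t + b`; record covering sieve with a prime in the
middle (starting library, `Pool.Agent.TH101.RG.covZ`, helper101) with the two excluded shifts `0` and `-s`.
-/

namespace Pool.Agent.Results.MP_d9bc60_nt.RecordLeastArgument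

/-- The record scale `f(x) = log x (log₂ x)² log₄ x / (log₃ x)²` (iterated natural logarithms). -/
noncomputable def f (x : ℝ) : ℝ :=
  Real.log x * (Real.log (Real.log x)) ^ 2 * Real.log (Real.log (Real.log (Real.log x))) /
    (Real.log (Real.log (Real.log x))) ^ 2

/-- The polynomial `F(x) = a x ^ 2 + b x + e`. -/
def F (a b e x : ℤ) : ℤ := a * x ^ 2 + b * x + e

/-- Let `a ≠ 0`, `b`, `e` be integers and let `d` be squarefree. There are `κ > 0` and `X₀` such that for all `X ≥ X₀`, all
`h` prime to `d` and all integers `t` with `|t| ≤ κ f(X)` at least `X ^ (9 / 10)` primes `p` with `X < p ≤ 3 X`,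
`p ≡ h (mod d)` have the following property: for every integer `m` with `|m| ≤ κ f(p)` and `F(m) ≠ F(t)` the number
`F(t) + p - F(m)` is not prime. -/
theorem result (a b e : ℤ) (ha : a ≠ 0) (d : ℕ) (hd : Squarefree d) : ∃ κ : ℝ, 0 < κ ∧ ∃ X₀ : ℝ,
    ∀ X : ℝ, X₀ ≤ X → ∀ h : ℕ, h.Coprime d → ∀ t : ℤ, |(t : ℝ)| ≤ κ * f X →
    X ^ (9 / 10 : ℝ) ≤ ({p : ℕ | p.Prime ∧ X < p ∧ (p : ℝ) ≤ 3 * X ∧ p ≡ h [MOD d] ∧
      ∀ m : ℤ, |(m : ℝ)| ≤ κ * f p → F a b e m = F a b e t ∨
        ¬ (F a b e t + p - F a b e m).natAbs.Prime}.ncard : ℝ) :=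
  Pool.Agent.X34.M.quad_final a b e ha d hd

end Pool.Agent.Results.MP_d9bc60_nt.RecordLeastArgument
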