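import Mathlib
import Pool.Agent.X37.RD.Quad

/-!
# `n = f(m) + q` with almost primes `m`, `q`, where `m` has restricted digits and lies in a given short interval,
uniformly in the admissible monic quadratic polynomial `f`

Let `f = X² + b X + c` be admissible (`b`, `c` of opposite parity, `3 ∤ b`), `n` odd, `|b|, |c|, |n|, x ≤ y ^ E`, and
suppose `f(m) + y ≤ n` for all `m` in `(x, x + y)`. Let `K = log_β (y / 3)`. Among the `m` in `(x, x + y)` whose last `K`
digits in base `β` belong to prescribed sets `A 0, ..., A (K - 1)` there are at least `κ |A 0| ⋯ |A (K - 1)| W` for which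
`m` and `n - f(m)` have at most `r` prime factors, all of them larger than `β ^ (K / r)`, and at most
`C |A 0| ⋯ |A (K - 1)| W` for which `m` and `n - f(m)` are primes, `W` being the product of `1 - ω(p) / p` over the
primes `p ≤ β ^ K`, where `ω(p)` counts the `m` modulo `p` with `p ∣ m (n - f(m))`; moreover `W ≥ κ / K ^ 3`. The sets
are arbitrary sets of digits with `|A 0| ⋯ |A (K - 1)| ≥ exp (- δ K) β ^ K`.
-/

set_option autoImplicit false

namespace Pool.Agent.Results.MP_d9bc60_nt.RestrictedDigits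

open Finset Filter

/-- the value at `m` of the polynomial `x ^ 2 + b x + c` -/
def f (b c m : ℤ) : ℤ := m ^ 2 + b * m + c

/-- the number of residue classes `m` modulo `p` with `p ∣ m (n - f m)` -/
def omega (b c n : ℤ) (p : ℕ) : ℕ := ((range p).filter (fun m : ℕ => (p : ℤ) ∣ (m : ℤ) * (n - f b c m))).card

/-- the product of `1 - ω(p) / p` over the primes `p ≤ z` -/
noncomputable def W (b c n : ℤ) (z : ℕ) : ℝ := ∏ p ∈ (Icc 1 z).filter Nat.Prime, (1 - (omega b c n p : ℝ) / p)

/-- the `m` with `x < m < x + y` for which `m` and `n - f m` have at most `r` prime factors each (counted with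
multiplicity), all of them larger than `z ^ (1 / r)` -/
def Almost (b c n : ℤ) (x y r z : ℕ) : Set ℕ := {m | (x < m ∧ m < x + y) ∧
  (∀ p : ℕ, p.Prime → p ∣ m → z < p ^ r) ∧ m.primeFactorsList.length ≤ r ∧
  (∀ p : ℕ, p.Prime → (p : ℤ) ∣ n - f b c m → z < p ^ r) ∧ (n - f b c m).natAbs.primeFactorsList.length ≤ r}

/-- the primes `m` with `x < m < x + y` for which `n - f m` is a prime -/
def Primes (b c n : ℤ) (x y : ℕ) : Set ℕ := {m | (x < m ∧ m < x + y) ∧ m.Prime ∧ (n - f b c m).natAbs.Prime}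

/-- the number of the elements of `S` whose `i`-th digit in base `β` belongs to `A i` for all `i < K` -/
noncomputable def count (β K : ℕ) (A : ℕ → Finset ℕ) (S : Set ℕ) : ℕ :=
  {m : ℕ | m ∈ S ∧ ∀ i < K, m / β ^ i % β ∈ A i}.ncard

/-- the number of choices of the `K` digits -/
def choices (K : ℕ) (A : ℕ → Finset ℕ) : ℕ := ∏ i ∈ range K, (A i).card

theorem result (E : ℕ) :
    ∃ δ : ℝ, 0 < δ ∧ ∃ r₀ : ℕ, 2 ≤ r₀ ∧ ∀ r : ℕ, r₀ ≤ r → ∀ β : ℕ, 2 ≤ β → ∃ κ C : ℝ, 0 < κ ∧ 0 < C ∧
      ∀ᶠ y : ℕ in atTop, ∀ b c : ℤ, Odd (b + c) → ¬ (3 : ℤ) ∣ b → |b| ≤ (y : ℤ) ^ E → |c| ≤ (y : ℤ) ^ E →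
        ∀ n : ℤ, Odd n → |n| ≤ (y : ℤ) ^ E → ∀ x : ℕ, x ≤ y ^ E →
        (∀ m : ℕ, x < m → m < x + y → f b c m + y ≤ n) → ∀ K : ℕ, K = Nat.log β (y / 3) →
        κ / (K : ℝ) ^ 3 ≤ W b c n (β ^ K) ∧
        ∀ A : ℕ → Finset ℕ, (∀ i < K, A i ⊆ range β) → (β : ℝ) ^ K ≤ Real.exp (δ * K) * choices K A →
        ((∃ d ∈ A 0, ((d : ℤ) * (n - f b c d)).natAbs.Coprime β) →
          κ * choices K A * W b c n (β ^ K) ≤ count β K A (Almost b c n x y r (β ^ K))) ∧
        (count β K A (Primes b c n x y) : ℝ) ≤ C * choices K A * W b c n (β ^ K) := by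
  classical
  obtain ⟨δ, hδ, r₀, hr₀, h⟩ := Pool.Agent.X37.RD.int_poly 3 (3 * E + 8) (by norm_num)
  refine ⟨δ, hδ, r₀, hr₀, fun r hr β hβ => ?_⟩
  have h2r : 2 ≤ r := hr₀.trans hr
  obtain ⟨κ, C, hκ, hC, h1⟩ := h r hr β hβ
  obtain ⟨v, Cv, hv, hCv, hW⟩ := Pool.Agent.Y816.PD.WG_bounds {0, 2, 6}
    (fun p hp => by
      by_cases h2 : p = 2
      · subst h2
        exact ⟨1, fun h hh => by simp only [mem_insert, mem_singleton] at hh; omega⟩
      by_cases h3 : p = 3
      · subst h3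
        exact ⟨2, fun h hh => by simp only [mem_insert, mem_singleton] at hh; omega⟩
      by_cases h5 : p = 5
      · subst h5
        exact ⟨1, fun h hh => by simp only [mem_insert, mem_singleton] at hh; omega⟩
      by_cases h7 : p = 7
      · subst h7
        exact ⟨2, fun h hh => by simp only [mem_insert, mem_singleton] at hh; omega⟩
      · have hp11 : 11 ≤ p := by
          by_contra hcon
          have hp2 := hp.two_le
          interval_cases p
          · exact h2 rfl
          · exact h3 rfl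
          · exact absurd hp (by norm_num)
          · exact h5 rfl
          · exact absurd hp (by norm_num)
          · exact h7 rfl
          · exact absurd hp (by norm_num)
          · exact absurd hp (by norm_num)
          · exact absurd hp (by norm_num)
        refine ⟨1, fun h hh hd => ?_⟩
        simp only [mem_insert, mem_singleton] at hh
        have := Nat.le_of_dvd (by omega) hd
        omega) 3 (by decide) β hβ
  refine ⟨min κ v, C, lt_min hκ hv, hC, ?_⟩
  obtain ⟨K0, hK0⟩ := eventually_atTop.1 hW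
  filter_upwards [h1, eventually_ge_atTop (3 * β ^ (K0 + 1 + 1)), eventually_ge_atTop 3] with
    y hy hyK hy3 b c hbc hb3 hb hc n hn hny x hx hpos K hK
  obtain ⟨hKK, hb1, hb2⟩ := Pool.Agent.Y816.PD.log_three hβ (K0 + 1 + 1) hyK hK
  have hβ0 : 0 < β := by omega
  have hβK0 : 0 < β ^ K := by positivity
  have hKpos : (0 : ℝ) < K := by
    have : 0 < K := by omega
    exact_mod_cast this
  have hWeq : Pool.Agent.Y816.PD.WG (fun j : ℕ => (Pool.Agent.X37.RD.QP b c n).eval (j : ℤ)) (β ^ K) =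
      W b c n (β ^ K) := by
    unfold Pool.Agent.Y816.PD.WG W omega f
    apply prod_congr rfl
    intro p _
    simp only [Pool.Agent.X37.RD.QP_eval]
  obtain ⟨hW1, hW2⟩ := hK0 K (by omega) 0
  have hWlow : v / (K : ℝ) ^ 3 ≤ W b c n (β ^ K) := by
    rw [← hWeq]
    exact hW1.trans (Pool.Agent.X37.RD.QP_WG hbc hb3 hn _)
  have hW0 : 0 ≤ W b c n (β ^ K) := le_trans (by positivity) hWlow
  refine ⟨(div_le_div_of_nonneg_right (min_le_right _ _) (by positivity)).trans hWlow, ?_⟩
  intro A hA hprod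
  have hNA : Pool.Agent.Y816.PD.NA K A = ((choices K A : ℕ) : ℝ) := by
    unfold Pool.Agent.Y816.PD.NA choices
    push_cast
    rfl
  have hNA0 : (0 : ℝ) ≤ (choices K A : ℝ) := Nat.cast_nonneg _
  obtain ⟨h2, h3⟩ := hy (Pool.Agent.X37.RD.QP b c n) (Pool.Agent.X37.RD.QP_deg b c n)
    (Pool.Agent.X37.RD.QP_adm hbc hb3 hn) x
    (fun m hm => Pool.Agent.X37.RD.QP_size hy3 hb hc hny hx hm) K hK A hA (by rw [hNA]; exact hprod)
  rw [hNA, hWeq] at h2 h3
  have hev : ∀ m : ℕ, (Pool.Agent.X37.RD.QP b c n).eval (m : ℤ) = (m : ℤ) * (n - f b c m) := by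
    intro m
    rw [Pool.Agent.X37.RD.QP_eval, f]
  have hdvd : ∀ (p : ℕ), p.Prime → ∀ m : ℕ, (p : ℤ) ∣ (Pool.Agent.X37.RD.QP b c n).eval (m : ℤ) ↔
      p ∣ m ∨ (p : ℤ) ∣ n - f b c m := by
    intro p hp m
    rw [hev, (Nat.prime_iff_prime_int.1 hp).dvd_mul, Int.natCast_dvd_natCast]
  constructor
  · rintro ⟨d, hd, hcop⟩
    have h4 : κ * (choices K A : ℝ) * W b c n (β ^ K) ≤ count β K A (Almost b c n x y r (β ^ K)) := by
      refine (h2 ⟨d, hd, ?_⟩).trans (Nat.cast_le.2 ?_)
      · rw [hev]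
        exact hcop
      · unfold Pool.Agent.Y816.PD.DC count
        apply Set.ncard_le_ncard
        · rintro m ⟨⟨⟨hm1, hm2⟩, hm3, hm4⟩, hm5⟩
          have hm0 : m ≠ 0 := by omega
          have hp1 := hpos m hm1 hm2
          have hnf : (n - f b c m).natAbs ≠ 0 := by
            have : (0 : ℤ) < y := by exact_mod_cast (by omega : 0 < y)
            omega
          rw [hev, Int.natAbs_mul, Int.natAbs_natCast] at hm4
          have h5 := (Nat.perm_primeFactorsList_mul hm0 hnf).length_eq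
          rw [List.length_append] at h5
          refine ⟨⟨⟨hm1, hm2⟩, fun p hp hpd => hm3 p hp ((hdvd p hp m).2 (Or.inl hpd)), by omega,
            fun p hp hpd => hm3 p hp ((hdvd p hp m).2 (Or.inr hpd)), by omega⟩, hm5⟩
        · apply (finite_toSet (Ioo x (x + y))).subset
          rintro m ⟨⟨hm, -⟩, -⟩
          rw [mem_coe, mem_Ioo]
          exact hm
    refine le_trans ?_ h4
    exact mul_le_mul_of_nonneg_right (mul_le_mul_of_nonneg_right (min_le_left _ _) hNA0) hW0
  · refine le_trans (Nat.cast_le.2 ?_) h3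
    unfold Pool.Agent.Y816.PD.DC count
    apply Set.ncard_le_ncard
    · rintro m ⟨⟨⟨hm1, hm2⟩, hm3, hm4⟩, hm5⟩
      have hp1 := hpos m hm1 hm2
      have hbN : β ^ K ≤ (n - f b c m).natAbs := by
        have h6 : β ^ K ≤ y := by omega
        omega
      refine ⟨⟨⟨hm1, hm2⟩, fun p hp hpd => ?_⟩, hm5⟩
      rcases (hdvd p hp m).1 hpd with h6 | h6
      · rw [(Nat.prime_dvd_prime_iff_eq hp hm3).1 h6]
        exact lt_of_le_of_lt (Nat.mod_le _ _) (lt_self_pow₀ hm3.one_lt (by omega))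
      · rw [(Nat.prime_dvd_prime_iff_eq hp hm4).1 (Int.natCast_dvd.1 h6)]
        have h7 : (n - f b c m).natAbs ≤ (n - f b c m).natAbs ^ r := Nat.le_self_pow (by omega) _
        exact lt_of_lt_of_le (Nat.mod_lt _ hβK0) (hbN.trans h7)
    · apply (finite_toSet (Ioo x (x + y))).subset
      rintro m ⟨⟨hm, -⟩, -⟩
      rw [mem_coe, mem_Ioo]
      exact hm

end Pool.Agent.Results.MP_d9bc60_nt.RestrictedDigits
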